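import Mathlib
import Pool.Agent.H.MP_1e8244_lc.A

set_option autoImplicit false

namespace Pool.Agent.Results.MP_1e8244_lc.No

open MeasureTheory Pool.Agent.H.MP_1e8244_lc

theorem result (μ : Measure (ℕ → ℕ)) [IsProbabilityMeasure μ] (h : ∀ x, μ {x} = 0) :
    bnd In K ≤ bnd Nev fun S => μ S = 0 :=
  have : NullSingletonClass μ := ⟨h⟩
  main μ

end Pool.Agent.Results.MP_1e8244_lc.No
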